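import Mathlib

/-!
MP_008206: the arithmetic end of the linear range (text of helper47).
-/

set_option autoImplicit false

namespace Pool.SIFEnd

theorem lin_end (w k D d kap h f inc T : ℤ) (hd0 : 0 ≤ d) (hkap0 : 0 ≤ kap)
    (hh0 : 0 ≤ h) (hf0 : 0 ≤ f) (hinc0 : 0 ≤ inc) (hkd : kap + d ≤ w) (hD : 5 * (k - 2) ≤ D)
    (hwk : w ≤ k - 3) (h5 : T ≤ -1 → 5 * h < w) (hfD : f ≤ D - 1) (hd : d = 0 → f = 0)
    (hA : w - kap + w * d - w * h + (D - 1 - kap) * h - d * f ≤ T)
    (hB : w - kap + w * d - w * h + (w + 1 - d - inc) * f - (w - d) * (k - 1) ≤ T)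
    (hC : w + w * d - 2 * kap - (w - inc) * h + f ≤ T) : 0 ≤ T := by
  by_contra hT
  have hT1 : T ≤ -1 := by omega
  have h5' := h5 hT1
  have hw0 : 0 ≤ w := by omega
  have hDw : 5 * (w + 1) ≤ D := by linarith
  -- `d = 0`
  rcases eq_or_lt_of_le hd0 with hd00 | hdpos
  · have hf : f = 0 := hd hd00.symm
    have h1 : 0 ≤ (D - 1 - kap - w) * h := mul_nonneg (by linarith) hh0
    rw [← hd00, hf] at hA
    nlinarith
  have hd1 : 1 ≤ d := by omega
  -- `h = 0`
  have hwd : w ≤ w * d := by nlinarith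
  have hinch : 0 ≤ inc * h := mul_nonneg hinc0 hh0
  rcases eq_or_lt_of_le hh0 with hh00 | hhpos
  · rw [← hh00] at hC
    nlinarith
  have hh1 : 1 ≤ h := by omega
  -- (A)
  have hkh : 0 ≤ (w - d - kap) * (1 + h) := mul_nonneg (by linarith) (by linarith)
  have hA1 : 1 + d + w * d + (D - 1 - 2 * w + d) * h ≤ d * f := by nlinarith
  -- `h < d`
  by_cases hhd : h < d
  · have h1 : 0 ≤ w * (d - h - 1) := mul_nonneg hw0 (by omega)
    nlinarith
  rw [not_lt] at hhd
  have hA2 : 1 + d * (D - w + d) ≤ d * f := by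
    have h1 : 0 ≤ (D - 1 - 2 * w + d) * (h - d) := mul_nonneg (by linarith) (by linarith)
    nlinarith
  have hf1 : D - w + d + 1 ≤ f := by
    by_contra hcon
    have h1 : f ≤ D - w + d := by omega
    have h2 : d * f ≤ d * (D - w + d) := mul_le_mul_of_nonneg_left h1 hd0
    linarith
  -- `h = d`
  rcases eq_or_lt_of_le hhd with hhd0 | hhd1
  · rw [← hhd0] at hC
    have h1 : 0 ≤ inc * d := mul_nonneg hinc0 hd0
    nlinarith
  -- `h ≥ d + 1`
  have hA3 : (h - d) * (D - 1 - 2 * w + d) ≤ d * w := by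
    have h1 : d * f ≤ d * (D - 1) := mul_le_mul_of_nonneg_left hfD hd0
    nlinarith
  have hA4 : (h - d) * (D - 1 - 2 * w) ≤ d * w := by
    have h1 : 0 ≤ (h - d) * d := mul_nonneg (by linarith) hd0
    nlinarith
  have hC1 : inc * h ≤ w * (h - d) := by nlinarith
  have hinc1 : inc * h * (D - 1 - 2 * w) ≤ w * (d * w) := by
    have h1 : 0 ≤ D - 1 - 2 * w := by linarith
    calc inc * h * (D - 1 - 2 * w) ≤ w * (h - d) * (D - 1 - 2 * w) :=
          mul_le_mul_of_nonneg_right hC1 h1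
      _ = w * ((h - d) * (D - 1 - 2 * w)) := by ring
      _ ≤ w * (d * w) := mul_le_mul_of_nonneg_left hA4 hw0
  have hinc2 : inc * (3 * w + 4) ≤ w * w := by
    have h1 : inc * h * (3 * w + 4) ≤ inc * h * (D - 1 - 2 * w) :=
      mul_le_mul_of_nonneg_left (by linarith) hinch
    have h2 : w * (d * w) ≤ w * w * h := by
      have : 0 ≤ w * w * (h - d) := mul_nonneg (mul_nonneg hw0 hw0) (by linarith)
      nlinarith
    have h3 : inc * (3 * w + 4) * h ≤ w * w * h := by nlinarith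
    exact le_of_mul_le_mul_right h3 (by omega)
  have hinc3 : 3 * inc < w := by
    by_contra hcon
    have h1 : w ≤ 3 * inc := by omega
    have h2 : 0 ≤ (3 * inc - w) * w := mul_nonneg (by linarith) hw0
    nlinarith
  have h5d : 5 * d < w := by linarith
  -- (B)
  have hB1 : (w + 1 - d - inc) * f < w * (k - 1) + w * (h - d) := by
    have h1 : 0 ≤ d * (k - 1) := mul_nonneg hd0 (by linarith)
    nlinarith
  have hB2 : 15 * ((w + 1 - d - inc) * f) ≥ (7 * w + 15) * (4 * (k - 2) + 3) := by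
    have h1 : 7 * w + 15 ≤ 15 * (w + 1 - d - inc) := by linarith
    have h2 : 4 * (k - 2) + 3 ≤ f := by linarith
    have h3 : 0 ≤ 4 * (k - 2) + 3 := by linarith
    calc (7 * w + 15) * (4 * (k - 2) + 3) ≤ (15 * (w + 1 - d - inc)) * (4 * (k - 2) + 3) :=
          mul_le_mul_of_nonneg_right h1 h3
      _ ≤ (15 * (w + 1 - d - inc)) * f := mul_le_mul_of_nonneg_left h2 (by linarith)
      _ = 15 * ((w + 1 - d - inc) * f) := by ring
  have hB3 : 5 * (w * (h - d)) ≤ w * w := by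
    have h1 : 0 ≤ w * (w - 5 * h) := mul_nonneg hw0 (by linarith)
    have h2 : 0 ≤ w * d := mul_nonneg hw0 hd0
    nlinarith
  have hB4 : w * w ≤ w * (k - 3) := mul_le_mul_of_nonneg_left hwk hw0
  have hwk2 : 0 ≤ w * (k - 2) := mul_nonneg hw0 (by linarith)
  nlinarith

end Pool.SIFEnd
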